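import Pool.Agent.Y522.Stm6
import Pool.Agent.Y522.Tools

/-!
# Small displacements in one chart are small in the other charts (project SH3)
-/

set_option autoImplicit false

open Set Filter Topology Metric Function MeasureTheory
open scoped Manifold ContDiff

noncomputable section

namespace Pool.Agent.Y977.SH

open Pool.Agent.Y522

/-- local Lipschitz estimates on a convex compact set, with a uniform scale, give a global one -/
theorem chain {V : Type} [NormedAddCommGroup V] [NormedSpace ℝ V] {K : Set V} (hK : Convex ℝ K)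
    {f : V → V} {η r : ℝ} (hr : 0 < r)
    (h : ∀ p ∈ K, ∀ q ∈ K, dist q p < r → ‖f q - f p‖ ≤ η * ‖q - p‖) :
    ∀ p ∈ K, ∀ q ∈ K, ‖f q - f p‖ ≤ η * ‖q - p‖ := by
  intro p hp q hq
  obtain ⟨N, hN⟩ := exists_nat_gt (‖q - p‖ / r)
  have hN0 : (0 : ℝ) < N := lt_of_le_of_lt (by positivity) hN
  have hx : ∀ i : ℕ, i ≤ N → p + ((i : ℝ) / N) • (q - p) ∈ K := by
    intro i hi
    have h1 : (i : ℝ) / N ≤ 1 := by
      rw [div_le_one hN0]
      exact_mod_cast hi
    have h2 : (0 : ℝ) ≤ (i : ℝ) / N := by positivity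
    exact hK.add_smul_sub_mem hp hq ⟨h2, h1⟩
  have key : ∀ i : ℕ, i ≤ N → ‖f (p + ((i : ℝ) / N) • (q - p)) - f p‖ ≤
      (i : ℝ) / N * (η * ‖q - p‖) := by
    intro i
    induction i with
    | zero => intro _; simp
    | succ i ih =>
      intro hi
      have h1 := ih (by omega)
      have h2 : (p + (((i + 1 : ℕ) : ℝ) / N) • (q - p)) - (p + ((i : ℝ) / N) • (q - p)) =
          (1 / (N : ℝ)) • (q - p) := by
        rw [add_sub_add_left_eq_sub, ← sub_smul]
        congr 1
        push_cast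
        field_simp
        ring
      have h3 : ‖(p + (((i + 1 : ℕ) : ℝ) / N) • (q - p)) - (p + ((i : ℝ) / N) • (q - p))‖ =
          (1 / (N : ℝ)) * ‖q - p‖ := by
        rw [h2, norm_smul, Real.norm_of_nonneg (by positivity)]
      have h4 := h _ (hx i (by omega)) _ (hx (i + 1) hi) (by
        rw [dist_eq_norm, h3, one_div, inv_mul_lt_iff₀ hN0]
        rw [div_lt_iff₀ hr] at hN
        exact hN)
      rw [h3] at h4
      calc ‖f (p + (((i + 1 : ℕ) : ℝ) / N) • (q - p)) - f p‖
          ≤ ‖f (p + (((i + 1 : ℕ) : ℝ) / N) • (q - p)) - f (p + ((i : ℝ) / N) • (q - p))‖ +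
            ‖f (p + ((i : ℝ) / N) • (q - p)) - f p‖ := norm_sub_le_norm_sub_add_norm_sub _ _ _
        _ ≤ η * ((1 / (N : ℝ)) * ‖q - p‖) + (i : ℝ) / N * (η * ‖q - p‖) := add_le_add h4 h1
        _ = ((i + 1 : ℕ) : ℝ) / N * (η * ‖q - p‖) := by
          push_cast
          field_simp
          ring
  have h1 := key N le_rfl
  rw [div_self hN0.ne', one_smul, one_mul, add_sub_cancel] at h1
  exact h1

section main

variable {n : ℕ} {X : Type} [TopologicalSpace X] [ChartedSpace (E n) X]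

/-- the analytic estimate near one point -/
theorem local_est {a : X → E n} {b : X → E n} {A B : E n → X} {χ : E n → ℝ} {p₀ z₀ : E n}
    (hA : LD n A z₀) (hB : LD n B p₀) (ha : LD n a (A z₀)) (hb : LD n b (B p₀))
    (hz : A z₀ = B p₀) (ha0 : a (A z₀) = z₀) (hχ : ContDiff ℝ ∞ χ)
    (ha1 : ∀ᶠ x in 𝓝 (A z₀), A (a x) = x) (hb1 : ∀ᶠ p in 𝓝 p₀, b (B p) = p)
    {η : ℝ} (hη : 0 < η) :
    ∃ r : ℝ, 0 < r ∧ ∀ p q σ : E n, dist p p₀ < r → dist q p₀ < r → ‖σ‖ < r →
      ‖(b (A (a (B q) + χ (a (B q)) • σ)) - q) - (b (A (a (B p) + χ (a (B p)) • σ)) - p)‖ ≤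
        η * ‖q - p‖ := by
  have hg : ContDiffAt ℝ ∞ (fun p => a (B p)) p₀ := by
    rw [hz] at ha
    exact contMDiffAt_iff_contDiffAt.1 (LD.comp_fun ha hB).contMDiffAt
  have hh : ContDiffAt ℝ ∞ (fun z => b (A z)) z₀ := by
    rw [← hz] at hb
    exact contMDiffAt_iff_contDiffAt.1 (LD.comp_fun hb hA).contMDiffAt
  have hg0 : a (B p₀) = z₀ := by rw [← hz, ha0]
  obtain ⟨Ψ, hΨ⟩ : ∃ Ψ : E n × E n → E n, ∀ w, Ψ w =
      b (A (a (B w.1) + χ (a (B w.1)) • w.2)) - w.1 := ⟨_, fun _ => rfl⟩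
  have hg' : ContDiffAt ℝ ∞ (fun w : E n × E n => a (B w.1)) (p₀, 0) :=
    ContDiffAt.comp (p₀, (0 : E n)) (g := fun p => a (B p)) (f := Prod.fst) hg contDiffAt_fst
  have hI : ContDiffAt ℝ ∞ (fun w : E n × E n => a (B w.1) + χ (a (B w.1)) • w.2) (p₀, 0) := by
    have h1 : ContDiffAt ℝ ∞ (fun w : E n × E n => χ (a (B w.1))) (p₀, 0) :=
      ContDiffAt.comp (p₀, (0 : E n)) (g := χ) hχ.contDiffAt hg'
    have h2 : ContDiffAt ℝ ∞ (fun w : E n × E n => χ (a (B w.1)) • w.2) (p₀, 0) :=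
      h1.smul contDiffAt_snd
    exact hg'.add h2
  have hΨd : ContDiffAt ℝ ∞ Ψ (p₀, 0) := by
    have h1 : ContDiffAt ℝ ∞ (fun w : E n × E n =>
        (fun z => b (A z)) (a (B w.1) + χ (a (B w.1)) • w.2) - w.1) (p₀, 0) := by
      refine ContDiffAt.sub ?_ contDiffAt_fst
      refine ContDiffAt.comp (p₀, (0 : E n)) (g := fun z => b (A z)) ?_ hI
      simpa [hg0] using hh
    refine h1.congr_of_eventuallyEq (Eventually.of_forall fun w => ?_)
    rw [hΨ]
  have hs := hΨd.hasStrictFDerivAt (by simp)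
  set L := fderiv ℝ Ψ (p₀, 0) with hL
  have hcont : ContinuousAt B p₀ := hB.continuousAt
  have h0 : ∀ᶠ p in 𝓝 p₀, Ψ (p, 0) = 0 := by
    have h1 : ∀ᶠ p in 𝓝 p₀, A (a (B p)) = B p := by
      rw [hz] at ha1
      exact hcont.eventually ha1
    filter_upwards [h1, hb1] with p hp hp'
    rw [hΨ]
    simp [hp, hp']
  have hL0 : ∀ v : E n, L (v, 0) = 0 := by
    have h1 : HasFDerivAt (fun p : E n => Ψ (p, 0)) (L.comp (ContinuousLinearMap.inl ℝ (E n) (E n)))
        p₀ := by
      have h2 : HasFDerivAt (fun p : E n => (p, (0 : E n)))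
          (ContinuousLinearMap.inl ℝ (E n) (E n)) p₀ := by
        have := (hasFDerivAt_id (𝕜 := ℝ) p₀).prodMk (hasFDerivAt_const (𝕜 := ℝ) (0 : E n) p₀)
        exact this
      exact HasFDerivAt.comp p₀ (g := Ψ) hs.hasFDerivAt h2
    have h3 : HasFDerivAt (fun p : E n => Ψ (p, 0)) (0 : E n →L[ℝ] E n) p₀ :=
      (hasFDerivAt_const (0 : E n) p₀).congr_of_eventuallyEq h0
    have h4 := h1.unique h3
    intro v
    have h5 := congrArg (fun T : E n →L[ℝ] E n => T v) h4
    simpa using h5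
  obtain ⟨s, hs1, hs2⟩ := hs.approximates_deriv_on_nhds
    (c := ⟨η, hη.le⟩) (Or.inr (by exact_mod_cast hη))
  obtain ⟨r, hr, hrs⟩ := Metric.mem_nhds_iff.1 hs1
  refine ⟨r, hr, fun p q σ hp hq hσ => ?_⟩
  have hm : ∀ y : E n, dist y p₀ < r → (y, σ) ∈ s := by
    intro y hy
    apply hrs
    rw [Metric.mem_ball, Prod.dist_eq, max_lt_iff]
    exact ⟨hy, by simpa using hσ⟩
  have h6 := hs2 (q, σ) (hm q hq) (p, σ) (hm p hp)
  rw [hΨ, hΨ, Prod.mk_sub_mk, sub_self, hL0, sub_zero, Prod.norm_mk, norm_zero,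
    max_eq_left (norm_nonneg _)] at h6
  exact h6

end main

/-- **Small displacements in one chart are `C¹`-small in the other charts.** -/
theorem disp : StDisp := by
  intro n X _ _ _ _ A B χ hAi hAd hBi hBd hχ hχ0 ρ ρ' η hρ' hρ hρ2 hη
  classical
  have : Nonempty (E n) := ⟨0⟩
  have h12 : closedBall (0 : E n) 1 ⊆ closedBall 0 2 := closedBall_subset_closedBall (by norm_num)
  obtain ⟨α, hα⟩ : ∃ α : X → E n, ∀ z, ‖z‖ ≤ 2 → α (A z) = z :=
    ⟨invFunOn A (closedBall 0 2), fun z hz => hAi.leftInvOn_invFunOn (by simpa using hz)⟩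
  obtain ⟨β, hβ⟩ : ∃ β : X → E n, ∀ z, ‖z‖ ≤ 2 → β (B z) = z :=
    ⟨invFunOn B (closedBall 0 2), fun z hz => hBi.leftInvOn_invFunOn (by simpa using hz)⟩
  have hAc : IsClosed (A '' closedBall 0 1) := by
    refine ((isCompact_closedBall (0 : E n) 1).image_of_continuousOn ?_).isClosed
    intro z hz
    exact (hAd z (h12 hz)).continuousAt.continuousWithinAt
  obtain ⟨τ, hτ⟩ : ∃ τ : E n → E n → E n, ∀ σ p, τ σ p =
      if B p ∈ A '' closedBall 0 1 then β (A (α (B p) + χ (α (B p)) • σ)) else p :=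
    ⟨_, fun _ _ => rfl⟩
  have hτ0 : ∀ σ p, B p ∉ A '' closedBall 0 1 → τ σ p = p := fun σ p hp => by rw [hτ, if_neg hp]
  obtain ⟨r, hr, hmain⟩ : ∃ r : ℝ, 0 < r ∧ ∀ σ : E n, ‖σ‖ < r → ∀ p ∈ closedBall (0 : E n) ρ',
      ∀ q ∈ closedBall (0 : E n) ρ', dist q p < r →
      (‖τ σ p‖ ≤ ρ ∧ ∀ z, ‖z‖ ≤ 1 → A z = B p → B (τ σ p) = A (z + χ z • σ)) ∧
      ‖(τ σ q - q) - (τ σ p - p)‖ ≤ η * ‖q - p‖ := by
    suffices H : ∃ r : ℝ, 0 < r ∧ ∀ σ : E n, ‖σ‖ < r → ∀ p ∈ closedBall (0 : E n) ρ',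
        p ∈ closedBall (0 : E n) ρ' →
      ∀ q ∈ closedBall (0 : E n) ρ', dist q p < r →
      (‖τ σ p‖ ≤ ρ ∧ ∀ z, ‖z‖ ≤ 1 → A z = B p → B (τ σ p) = A (z + χ z • σ)) ∧
      ‖(τ σ q - q) - (τ σ p - p)‖ ≤ η * ‖q - p‖ by
      obtain ⟨r, hr, h⟩ := H
      exact ⟨r, hr, fun σ hσ p hp => h σ hσ p hp hp⟩
    refine (isCompact_closedBall (0 : E n) ρ').induction_on
      (p := fun S => ∃ r : ℝ, 0 < r ∧ ∀ σ : E n, ‖σ‖ < r → ∀ p ∈ S, p ∈ closedBall (0 : E n) ρ' →
      ∀ q ∈ closedBall (0 : E n) ρ', dist q p < r →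
      (‖τ σ p‖ ≤ ρ ∧ ∀ z, ‖z‖ ≤ 1 → A z = B p → B (τ σ p) = A (z + χ z • σ)) ∧
      ‖(τ σ q - q) - (τ σ p - p)‖ ≤ η * ‖q - p‖) ?_ ?_ ?_ ?_
    · exact ⟨1, one_pos, fun _ _ p hp => hp.elim⟩
    · rintro S T hST ⟨r, hr, h⟩
      exact ⟨r, hr, fun σ hσ p hp => h σ hσ p (hST hp)⟩
    · rintro S T ⟨r, hr, h⟩ ⟨r', hr', h'⟩
      refine ⟨min r r', lt_min hr hr', fun σ hσ p hp hp' q hq hqp => ?_⟩
      rcases hp with hp | hp
      · exact h σ (hσ.trans_le (min_le_left _ _)) p hp hp' q hq (hqp.trans_le (min_le_left _ _))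
      · exact h' σ (hσ.trans_le (min_le_right _ _)) p hp hp' q hq (hqp.trans_le (min_le_right _ _))
    · intro p₀ hp₀
      have hp₀2 : p₀ ∈ closedBall (0 : E n) 2 :=
        closedBall_subset_closedBall (by linarith) hp₀
      have hBc : ContinuousAt B p₀ := (hBd p₀ hp₀2).continuousAt
      by_cases hp₀A : B p₀ ∈ A '' closedBall 0 1
      · obtain ⟨z₀, hz₀, hz⟩ := hp₀A
        have hz₀2 : z₀ ∈ closedBall (0 : E n) 2 := h12 hz₀
        obtain ⟨a, ha, ha0, ha2, ha1⟩ := (hAd z₀ hz₀2).exists_inverse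
        obtain ⟨b, hb, hb0, hb1, hb2⟩ := (hBd p₀ hp₀2).exists_inverse
        obtain ⟨r₁, hr₁, hest⟩ := local_est (hAd z₀ hz₀2) (hBd p₀ hp₀2) ha hb hz ha0 hχ ha1 hb1 hη
        have haB : ContinuousAt (fun p => a (B p)) p₀ := by
          rw [hz] at ha
          exact (LD.comp_fun ha (hBd p₀ hp₀2)).continuousAt
        have hg0 : a (B p₀) = z₀ := by rw [← hz, ha0]
        -- the inner map
        have hI : ContinuousAt (fun w : E n × E n => a (B w.1) + χ (a (B w.1)) • w.2) (p₀, 0) := by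
          have h1 : ContinuousAt (fun w : E n × E n => a (B w.1)) (p₀, 0) :=
            ContinuousAt.comp (f := Prod.fst) (g := fun p => a (B p)) (x := (p₀, (0 : E n)))
              haB continuousAt_fst
          have h2 : ContinuousAt (fun w : E n × E n => χ (a (B w.1))) (p₀, 0) :=
            ContinuousAt.comp (g := χ) (x := (p₀, (0 : E n))) hχ.continuous.continuousAt h1
          have h3 : ContinuousAt (fun w : E n × E n => χ (a (B w.1)) • w.2) (p₀, 0) :=
            h2.smul continuousAt_snd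
          exact h1.add h3
        have hAI : ContinuousAt (fun w : E n × E n => A (a (B w.1) + χ (a (B w.1)) • w.2))
            (p₀, 0) := by
          refine ContinuousAt.comp (g := A) (x := (p₀, (0 : E n))) ?_ hI
          simpa [hg0] using (hAd z₀ hz₀2).continuousAt
        have hv : A (a (B p₀) + χ (a (B p₀)) • (0 : E n)) = B p₀ := by
          rw [smul_zero, add_zero, hg0, hz]
        have hbA : ContinuousAt (fun w : E n × E n => b (A (a (B w.1) + χ (a (B w.1)) • w.2)))
            (p₀, 0) := by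
          refine ContinuousAt.comp (g := b) (x := (p₀, (0 : E n))) ?_ hAI
          change ContinuousAt b (A (a (B p₀) + χ (a (B p₀)) • (0 : E n)))
          rw [hv]
          exact hb.continuousAt
        have e1 : ∀ᶠ w : E n × E n in 𝓝 (p₀, 0),
            B (b (A (a (B w.1) + χ (a (B w.1)) • w.2))) = A (a (B w.1) + χ (a (B w.1)) • w.2) := by
          refine hAI.eventually (p := fun x => B (b x) = x) ?_
          change ∀ᶠ x in 𝓝 (A (a (B p₀) + χ (a (B p₀)) • (0 : E n))), B (b x) = x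
          rw [hv]
          exact hb2
        have e2 : ∀ᶠ w : E n × E n in 𝓝 (p₀, 0), A (a (B w.1)) = B w.1 := by
          have h1 : ContinuousAt (fun w : E n × E n => B w.1) (p₀, 0) :=
            ContinuousAt.comp (f := Prod.fst) (g := B) (x := (p₀, (0 : E n))) hBc continuousAt_fst
          rw [hz] at ha1
          exact h1.eventually (p := fun x => A (a x) = x) ha1
        have e3 : ∀ᶠ w : E n × E n in 𝓝 (p₀, 0), ‖a (B w.1)‖ < 2 := by
          have h1 : ContinuousAt (fun w : E n × E n => ‖a (B w.1)‖) (p₀, 0) :=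
            (ContinuousAt.comp (f := Prod.fst) (g := fun p => a (B p)) (x := (p₀, (0 : E n)))
              haB continuousAt_fst).norm
          refine h1.eventually_lt continuousAt_const ?_
          simp only [hg0]
          have : ‖z₀‖ ≤ 1 := by simpa using hz₀
          linarith
        have e4 : ∀ᶠ w : E n × E n in 𝓝 (p₀, 0),
            ‖b (A (a (B w.1) + χ (a (B w.1)) • w.2)) - w.1‖ < ρ - ρ' := by
          have h1 : ContinuousAt (fun w : E n × E n =>
              ‖b (A (a (B w.1) + χ (a (B w.1)) • w.2)) - w.1‖) (p₀, 0) :=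
            (hbA.sub continuousAt_fst).norm
          refine h1.eventually_lt continuousAt_const ?_
          simp only [hv, hb0, sub_self, norm_zero]
          linarith
        obtain ⟨r₂, hr₂, hball⟩ := Metric.eventually_nhds_iff_ball.1 (e1.and (e2.and (e3.and e4)))
        have hpt : ∀ p σ : E n, dist p p₀ < r₂ → ‖σ‖ < r₂ → ‖p‖ ≤ ρ' →
            τ σ p = b (A (a (B p) + χ (a (B p)) • σ)) ∧ ‖τ σ p‖ ≤ ρ ∧
              ∀ z, ‖z‖ ≤ 1 → A z = B p → B (τ σ p) = A (z + χ z • σ) := by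
          intro p σ hp hσ hpρ
          obtain ⟨c1, c2, c3, c4⟩ := hball (p, σ) (by
            rw [Metric.mem_ball, Prod.dist_eq, max_lt_iff]
            exact ⟨hp, by simpa using hσ⟩)
          simp only at c1 c2 c3 c4
          have hn : ‖b (A (a (B p) + χ (a (B p)) • σ))‖ ≤ ρ := by
            have h1 := norm_le_norm_add_norm_sub' (b (A (a (B p) + χ (a (B p)) • σ))) p
            linarith
          have heq : τ σ p = b (A (a (B p) + χ (a (B p)) • σ)) := by
            rw [hτ]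
            split_ifs with hmem
            · have h1 : α (B p) = a (B p) := by
                rw [← c2, hα _ c3.le, c2]
              rw [h1, ← c1, hβ _ (by linarith), c1]
            · have h1 : χ (a (B p)) = 0 := by
                apply hχ0
                by_contra hcon
                exact hmem ⟨a (B p), by simpa using (not_le.1 hcon).le, c2⟩
              rw [h1, zero_smul, add_zero, c2] at c1 hn ⊢
              exact (hBi (by simpa using hn.trans hρ2) (by simpa using by linarith) c1).symm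
          refine ⟨heq, heq ▸ hn, fun z hz1 hzp => ?_⟩
          have h1 : a (B p) = z := by
            apply hAi (by simpa using c3.le) (by simpa using by linarith)
            rw [c2, hzp]
          rw [heq, c1, h1]
        refine ⟨ball p₀ (min r₁ r₂ / 2), mem_nhdsWithin_of_mem_nhds (ball_mem_nhds _ (by positivity)),
          min r₁ r₂ / 2, by positivity, fun σ hσ p hp hp' q hq hqp => ?_⟩
        rw [mem_ball] at hp
        have hm : min r₁ r₂ / 2 < r₁ ∧ min r₁ r₂ / 2 < r₂ := by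
          have h1 := min_le_left r₁ r₂
          have h2 := min_le_right r₁ r₂
          have h3 : 0 < min r₁ r₂ := lt_min hr₁ hr₂
          constructor <;> linarith
        have hq0 : dist q p₀ < min r₁ r₂ := by
          have := dist_triangle q p p₀
          linarith
        obtain ⟨d1, d2, d3⟩ := hpt p σ (hp.trans hm.2) (hσ.trans hm.2) (by simpa using hp')
        obtain ⟨f1, -, -⟩ := hpt q σ (hq0.trans_le (min_le_right _ _)) (hσ.trans hm.2)
          (by simpa using hq)
        refine ⟨⟨d2, d3⟩, ?_⟩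
        rw [d1, f1]
        exact hest p q σ (hp.trans hm.1) (hq0.trans_le (min_le_left _ _)) (hσ.trans hm.1)
      · have h1 : ∀ᶠ p in 𝓝 p₀, B p ∉ A '' closedBall 0 1 :=
          hBc.eventually (hAc.isOpen_compl.mem_nhds hp₀A)
        obtain ⟨r₂, hr₂, hball⟩ := Metric.eventually_nhds_iff_ball.1 h1
        refine ⟨ball p₀ (r₂ / 2), mem_nhdsWithin_of_mem_nhds (ball_mem_nhds _ (by positivity)),
          r₂ / 2, by positivity, fun σ hσ p hp hp' q hq hqp => ?_⟩
        rw [mem_ball] at hp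
        have hpb : B p ∉ A '' closedBall 0 1 := hball p (by rw [mem_ball]; linarith)
        have hqb : B q ∉ A '' closedBall 0 1 := hball q (by
          rw [mem_ball]
          have := dist_triangle q p p₀
          linarith)
        have hpn : ‖p‖ ≤ ρ' := by simpa using hp'
        rw [hτ0 σ p hpb, hτ0 σ q hqb]
        refine ⟨⟨by linarith, fun z hz1 hzp => ?_⟩, ?_⟩
        · exact absurd ⟨z, by simpa using hz1, hzp⟩ hpb
        · simp only [sub_self, norm_zero]
          positivity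
  refine ⟨r / 2, by positivity, fun ε hε s hs => ⟨τ (ε • s), ?_, ?_, fun p _ hp => hτ0 _ p hp, ?_⟩⟩
  all_goals
    have hσ : ‖ε • s‖ < r := by
      rw [norm_smul, Real.norm_eq_abs]
      calc |ε| * ‖s‖ ≤ r / 2 * 1 := mul_le_mul hε hs (norm_nonneg _) (by positivity)
        _ < r := by linarith
  · intro p hp
    have hpm : p ∈ closedBall (0 : E n) ρ' := by simpa using hp
    exact (hmain _ hσ p hpm p hpm (by simpa using hr)).1.1
  · intro p hp z hz hzp
    have hpm : p ∈ closedBall (0 : E n) ρ' := by simpa using hp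
    rw [(hmain _ hσ p hpm p hpm (by simpa using hr)).1.2 z hz hzp, smul_smul, mul_comm]
  · intro p q hp hq
    have h1 := chain (convex_closedBall (0 : E n) ρ') (f := fun x => τ (ε • s) x - x) hr
      (fun p hp q hq hd => (hmain _ hσ p hp q hq hd).2) p (by simpa using hp) q (by simpa using hq)
    have h2 : (τ (ε • s) q - τ (ε • s) p) - (q - p) =
        (τ (ε • s) q - q) - (τ (ε • s) p - p) := by abel
    rw [h2]
    exact h1

end Pool.Agent.Y977.SH
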